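import Pool.Agent.Helper60.T3.GoalsI
import Pool.Agent.Helper12.SGB.All

/-!
# Project T3 (MP_a41896_nt), packet INDR: IND from the curve lemma
-/

set_option autoImplicit false

open MvPolynomial

namespace Pool.Agent.Helper33.T3.INDR

open WeierstrassCurve
open Pool.Agent.Helper29.BL Pool.Agent.Helper92.Ru Pool.Agent.Helper42.SG
open Pool.Agent.Helper68.VN (mapS Ax blkB)
open Pool.Agent.Helper60.T3

noncomputable section

/-- the algebraic closure of the field generated by the other coordinates -/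
theorem exk (K Ω : Type) [Field K] [Field Ω] [Algebra K Ω] [IsAlgClosed Ω] (σ : Type)
    (i0 i' : σ) (hne : i0 ≠ i') (X X0 : σ → Ω)
    (hind : AlgebraicIndependent K
      (Sum.elim (fun i : {i : σ // i ≠ i'} => X i) (fun i : {i : σ // i ≠ i'} => X0 i))) :
    ∃ k : IntermediateField K Ω, IsAlgClosed k ∧ (∀ i, i ≠ i0 → i ≠ i' → X i ∈ k ∧ X0 i ∈ k) ∧
      AlgebraicIndependent k ![X i0, X0 i0] := by
  classical
  let T := {i : σ // i ≠ i0 ∧ i ≠ i'}
  let s : T ⊕ T → Ω := Sum.elim (fun i => X i.1) (fun i => X0 i.1)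
  have h1 : AlgebraicIndependent K (Sum.elim ![X i0, X0 i0] s) := by
    let f : Fin 2 ⊕ (T ⊕ T) → {i : σ // i ≠ i'} ⊕ {i : σ // i ≠ i'} :=
      Sum.elim ![Sum.inl ⟨i0, hne⟩, Sum.inr ⟨i0, hne⟩]
        (Sum.elim (fun i => Sum.inl ⟨i.1, i.2.2⟩) (fun i => Sum.inr ⟨i.1, i.2.2⟩))
    have hf : Function.Injective f := by
      rintro (a | a | a) (b | b | b) hab
      · fin_cases a <;> fin_cases b <;> simp [f] at hab ⊢
      · fin_cases a <;> simp [f] at hab
        exact absurd hab.symm b.2.1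
      · fin_cases a <;> simp [f] at hab
        exact absurd hab.symm b.2.1
      · fin_cases b <;> simp [f] at hab
        exact absurd hab a.2.1
      · simp only [f, Sum.elim_inr, Sum.elim_inl, Sum.inl.injEq, Subtype.mk.injEq] at hab
        rw [Subtype.ext hab]
      · simp [f] at hab
      · fin_cases b <;> simp [f] at hab
        exact absurd hab a.2.1
      · simp [f] at hab
      · simp only [f, Sum.elim_inr, Sum.inr.injEq, Subtype.mk.injEq] at hab
        rw [Subtype.ext hab]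
    have h := hind.comp f hf
    have he : (Sum.elim (fun i : {i : σ // i ≠ i'} => X i) (fun i : {i : σ // i ≠ i'} => X0 i)) ∘ f
        = Sum.elim ![X i0, X0 i0] s := by
      funext j
      rcases j with j | j | j
      · fin_cases j <;> rfl
      · rfl
      · rfl
    rw [he] at h
    exact h
  have h2 := (AlgebraicIndependent.sumElim_iff.1 h1).2
  have h3 : AlgebraicIndependent (IntermediateField.adjoin K (Set.range s)) ![X i0, X0 i0] :=
    IntermediateField.algebraicIndependent_adjoin_iff.2 h2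
  have h4 := h3.algebraicClosure
  refine ⟨(algebraicClosure (IntermediateField.adjoin K (Set.range s)) Ω).restrictScalars K,
    ?_, ?_, ?_⟩
  · have : IsAlgClosed (algebraicClosure (IntermediateField.adjoin K (Set.range s)) Ω) :=
      IsAlgClosure.isAlgClosed (IntermediateField.adjoin K (Set.range s))
    exact this
  · intro i hi hi'
    constructor
    · have hm : X i ∈ IntermediateField.adjoin K (Set.range s) :=
        IntermediateField.subset_adjoin _ _ ⟨Sum.inl ⟨i, hi, hi'⟩, rfl⟩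
      rw [IntermediateField.mem_restrictScalars, mem_algebraicClosure_iff]
      exact isAlgebraic_algebraMap
        (⟨X i, hm⟩ : IntermediateField.adjoin K (Set.range s))
    · have hm : X0 i ∈ IntermediateField.adjoin K (Set.range s) :=
        IntermediateField.subset_adjoin _ _ ⟨Sum.inr ⟨i, hi, hi'⟩, rfl⟩
      rw [IntermediateField.mem_restrictScalars, mem_algebraicClosure_iff]
      exact isAlgebraic_algebraMap
        (⟨X0 i, hm⟩ : IntermediateField.adjoin K (Set.range s))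
  · exact h4

/-- a point with given coordinates -/
theorem exP {F : Type} [Field F] [CharZero F] (W : Affine F) [W.IsElliptic] (x s : F)
    (h : s ^ 2 = Bf W x) : ∃ P : W.Point, P ≠ 0 ∧ xc P = x ∧ ps P = s := by
  have h2 : (2 : F) ≠ 0 := two_ne_zero
  have hns : W.Nonsingular x ((s - (W.a₁ * x + W.a₃)) / 2) := by
    rw [← Affine.equation_iff_nonsingular, Affine.equation_iff]
    simp only [Bf, WeierstrassCurve.b₂, WeierstrassCurve.b₄, WeierstrassCurve.b₆] at h
    field_simp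
    linear_combination h
  refine ⟨Affine.Point.some x _ hns, ?_, rfl, ?_⟩
  · exact Affine.Point.some_ne_zero hns
  · show 2 * ((s - (W.a₁ * x + W.a₃)) / 2) + W.a₁ * x + W.a₃ = s
    field_simp
    ring

/-- transport of points along an equality of curves -/
theorem tr2 {F : Type} [Field F] [DecidableEq F] (V V' : Affine F) (h : V = V') (P Q : V.Point)
    (e : ℕ) : ∃ P' Q' : V'.Point, xc P' = xc P ∧ xc Q' = xc Q ∧
      (P ≠ 0 → P' ≠ 0) ∧ (Q ≠ 0 → Q' ≠ 0) ∧
      ((2 ^ e) • P' - Q' ≠ 0 → (2 ^ e) • P - Q ≠ 0) ∧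
      ((2 ^ e) • P' + Q' ≠ 0 → (2 ^ e) • P + Q ≠ 0) ∧
      xc ((2 ^ e) • P' - Q') = xc ((2 ^ e) • P - Q) := by
  subst h
  exact ⟨P, Q, rfl, rfl, id, id, id, id, rfl⟩

/-- a polynomial with given coefficients -/
theorem poly {K k Ω : Type} [Field K] [Field k] [Field Ω] [Algebra K k] [Algebra k Ω]
    [Algebra K Ω] [IsScalarTower K k Ω] {ι U : Type} [Fintype ι] [Fintype U] (c : ι → K)
    (hc : c ≠ 0) (m3 : ι → Fin 3 → ℕ) (mt : ι → U → ℕ)
    (hinj : ∀ α β, c α ≠ 0 → c β ≠ 0 → m3 α = m3 β → mt α = mt β → α = β) (z : U → k)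
    (hz : AlgebraicIndependent K z) (v : Fin 3 → Ω) :
    ∃ R : MvPolynomial (Fin 3) k, R ≠ 0 ∧
      aeval v R = ∑ α, algebraMap K Ω (c α) * ((∏ u, algebraMap k Ω (z u) ^ mt α u) *
        ∏ j, v j ^ m3 α j) ∧ ∃ α, c α ≠ 0 ∧ R.degreeOf 0 = m3 α 0 := by
  classical
  let f3 : ι → (Fin 3 →₀ ℕ) := fun α => Finsupp.equivFunOnFinite.symm (m3 α)
  let ft : ι → (U →₀ ℕ) := fun α => Finsupp.equivFunOnFinite.symm (mt α)
  let R : MvPolynomial (Fin 3) k := ∑ α, monomial (f3 α) (aeval z (monomial (ft α) (c α)))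
  have hcoeff : ∀ m, coeff m R = aeval z (∑ α, if f3 α = m then monomial (ft α) (c α) else 0) := by
    intro m
    rw [map_sum]
    simp only [R, coeff_sum, coeff_monomial]
    refine Finset.sum_congr rfl fun α _ => ?_
    split_ifs
    · rfl
    · rw [map_zero]
  have hR : R ≠ 0 := by
    obtain ⟨α0, h0⟩ := Function.ne_iff.1 hc
    intro hR0
    have h1 := hcoeff (f3 α0)
    rw [hR0, coeff_zero] at h1
    have h2 := hz.eq_zero_of_aeval_eq_zero _ h1.symm
    have h3 := congrArg (coeff (ft α0)) h2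
    rw [coeff_sum, coeff_zero] at h3
    have h4 : (∑ α, coeff (ft α0) (if f3 α = f3 α0 then monomial (ft α) (c α) else 0)) = c α0 := by
      rw [Finset.sum_eq_single α0]
      · rw [if_pos rfl, coeff_monomial, if_pos rfl]
      · intro β _ hβ
        split_ifs with hf
        · rw [coeff_monomial]
          split_ifs with hft
          · by_contra hcβ
            apply hβ
            apply hinj β α0 hcβ h0
            · exact Finsupp.equivFunOnFinite.symm.injective hf
            · exact Finsupp.equivFunOnFinite.symm.injective hft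
          · rfl
        · rw [coeff_zero]
      · intro hn
        exact absurd (Finset.mem_univ _) hn
    rw [h4] at h3
    exact h0 h3
  refine ⟨R, hR, ?_, ?_⟩
  · simp only [R, map_sum, aeval_monomial]
    refine Finset.sum_congr rfl fun α _ => ?_
    rw [map_mul, ← IsScalarTower.algebraMap_apply K k Ω, Finsupp.prod_fintype _ _ (by simp),
      Finsupp.prod_fintype _ _ (by simp), map_prod]
    simp only [map_pow, f3, ft, Finsupp.equivFunOnFinite_symm_apply_apply]
    ring
  · have hs : R.support.Nonempty := by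
      rwa [Finset.nonempty_iff_ne_empty, Ne, support_eq_empty]
    obtain ⟨m, hm, hdm⟩ := Finset.exists_mem_eq_sup R.support hs (fun m : Fin 3 →₀ ℕ => m 0)
    have hm' := mem_support_iff.1 hm
    rw [hcoeff m] at hm'
    have : ∃ α, c α ≠ 0 ∧ f3 α = m := by
      by_contra hcon
      push Not at hcon
      apply hm'
      rw [Finset.sum_eq_zero, map_zero]
      intro α _
      split_ifs with hf
      · have : c α = 0 := by
          by_contra hca
          exact hcon α hca hf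
        rw [this, monomial_zero]
      · rfl
    obtain ⟨α, hα, hfα⟩ := this
    refine ⟨α, hα, ?_⟩
    rw [degreeOf_eq_sup, hdm, ← hfα]
    rfl

theorem prodT {σ F : Type} [Fintype σ] [DecidableEq σ] [CommRing F] (i0 i' : σ) (hne : i0 ≠ i')
    (f : σ → F) : ∏ i, f i = f i0 * (f i' * ∏ i : {i : σ // i ≠ i0 ∧ i ≠ i'}, f i.1) := by
  rw [← Finset.mul_prod_erase Finset.univ f (Finset.mem_univ i0),
    ← Finset.mul_prod_erase (Finset.univ.erase i0) f
      (Finset.mem_erase.2 ⟨hne.symm, Finset.mem_univ i'⟩)]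
  congr 2
  rw [Finset.prod_subtype (p := fun i => i ≠ i0 ∧ i ≠ i') ((Finset.univ.erase i0).erase i')]
  intro i
  simp only [Finset.mem_erase, Finset.mem_univ, and_true]
  tauto

/-- square roots are in an algebraically closed subfield -/
theorem sq_mem {k Ω : Type} [Field k] [IsAlgClosed k] [Field Ω] [Algebra k Ω] (s : Ω) (b : k)
    (h : s ^ 2 = algebraMap k Ω b) : ∃ t : k, algebraMap k Ω t = s := by
  obtain ⟨t, ht⟩ := IsAlgClosed.exists_pow_nat_eq b (n := 2) (by norm_num)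
  have h1 : s ^ 2 = (algebraMap k Ω t) ^ 2 := by
    rw [h, ← ht, map_pow]
  rcases sq_eq_sq_iff_eq_or_eq_neg.1 h1 with h2 | h2
  · exact ⟨t, h2.symm⟩
  · exact ⟨-t, by rw [map_neg, h2]⟩

theorem mm {K k Ω : Type} [Field K] [Field k] [Field Ω] [Algebra K k]
    [Algebra k Ω] [Algebra K Ω] [IsScalarTower K k Ω] (W : Affine K) :
    WL Ω W = WL Ω (W.map (algebraMap K k)) := by
  have h := WeierstrassCurve.map_map (W := W) (algebraMap K k) (algebraMap k Ω)
  rw [← IsScalarTower.algebraMap_eq K k Ω] at h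
  exact h.symm

/-- the `x`-coordinate of `w` is in the subfield -/
theorem w_mem {K k Ω : Type} [Field K] [Field k] [IsAlgClosed k] [Field Ω] [Algebra K k]
    [Algebra k Ω] [Algebra K Ω] [IsScalarTower K k Ω] (W : Affine K) (e : ℕ) (x x0 ψ ψ0 y : Ω)
    (hψ : ψ ^ 2 = Bf (WL Ω W) x) (hψ0 : ψ0 ^ 2 = Bf (WL Ω W) x0)
    (hx : x ∈ Set.range (algebraMap k Ω)) (hx0 : x0 ∈ Set.range (algebraMap k Ω))
    (h1 : (law (WL Ω W) e false x x0 (ψ * ψ0)).1 ≠ 0)
    (h2 : (law (WL Ω W) e false x x0 (ψ * ψ0)).2 =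
      y * (law (WL Ω W) e false x x0 (ψ * ψ0)).1) : ∃ z : k, algebraMap k Ω z = y := by
  have hW : WL Ω W = WL Ω (W.map (algebraMap K k)) := mm W
  obtain ⟨x, rfl⟩ := hx
  obtain ⟨x0, rfl⟩ := hx0
  have hB : ∀ t : k, Bf (WL Ω W) (algebraMap k Ω t) =
      algebraMap k Ω (Bf (W.map (algebraMap K k)) t) := by
    intro t
    rw [hW]
    simp only [Bf, WeierstrassCurve.map_b₂, WeierstrassCurve.map_b₄, WeierstrassCurve.map_b₆,
      map_add, map_mul, map_pow, map_ofNat]
  rw [hB] at hψ hψ0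
  obtain ⟨s, rfl⟩ := sq_mem ψ _ hψ
  obtain ⟨s0, rfl⟩ := sq_mem ψ0 _ hψ0
  have hl : law (WL Ω (W.map (algebraMap K k))) e false (algebraMap k Ω x) (algebraMap k Ω x0)
      (algebraMap k Ω (s * s0)) =
      (algebraMap k Ω (law (W.map (algebraMap K k)) e false x x0 (s * s0)).1,
        algebraMap k Ω (law (W.map (algebraMap K k)) e false x x0 (s * s0)).2) :=
    (Pool.Agent.Helper24.SGB.lawmap k Ω (algebraMap k Ω) (W.map (algebraMap K k)) e).2
      false x x0 (s * s0)
  rw [← hW, map_mul] at hl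
  rw [hl] at h1 h2
  simp only at h1 h2
  refine ⟨(law (W.map (algebraMap K k)) e false x x0 (s * s0)).2 /
    (law (W.map (algebraMap K k)) e false x x0 (s * s0)).1, ?_⟩
  rw [map_div₀, h2, mul_div_assoc, div_self h1, mul_one]

theorem t : S_INDR := by
  intro hCRV hAIW hSPC hSLP D0
  obtain ⟨η, hη, hC⟩ := hCRV D0
  refine ⟨η, hη, ?_⟩
  intro K _ _ σ _ _ W hW h2 h0 i0 i' hne hi2 hi0 hd2 hd0 hp2 hp0 x2 x0 hx2 hx0 hNN M e c hc hcs
    Ω _ _ _ X Ψ X0 Ψ0 hΨ hΨ0 ha2 ha0 hind
  classical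
  have : CharZero Ω := charZero_of_injective_algebraMap (algebraMap K Ω).injective
  obtain ⟨k, hk, hmem, hik⟩ := exk K Ω σ i0 i' hne X X0 hind
  have := hk
  have : CharZero k := charZero_of_injective_algebraMap (algebraMap K k).injective
  have hrng : ∀ i, i ≠ i0 → i ≠ i' → X i ∈ Set.range (algebraMap k Ω) ∧
      X0 i ∈ Set.range (algebraMap k Ω) := fun i h h' =>
    ⟨⟨⟨X i, (hmem i h h').1⟩, rfl⟩, ⟨⟨X0 i, (hmem i h h').2⟩, rfl⟩⟩
  have hWΩ : ∀ i, (WL Ω (W i)).IsElliptic := fun i => by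
    have := hW i
    infer_instance
  have hP : ∀ i, ∃ P : (WL Ω (W i)).Point, P ≠ 0 ∧ xc P = X i ∧ ps P = Ψ i := fun i => by
    have := hWΩ i
    exact exP (WL Ω (W i)) (X i) (Ψ i) (hΨ i)
  have hQ : ∀ i, ∃ P : (WL Ω (W i)).Point, P ≠ 0 ∧ xc P = X0 i ∧ ps P = Ψ0 i := fun i => by
    have := hWΩ i
    exact exP (WL Ω (W i)) (X0 i) (Ψ0 i) (hΨ0 i)
  choose P hPn hPx hPs using hP
  choose Q hQn hQx hQs using hQ
  have hi1 : AlgebraicIndependent K (fun i : {i : σ // i ≠ i'} => X i) :=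
    hind.comp Sum.inl Sum.inl_injective
  have hi1' : AlgebraicIndependent K (fun i : {i : σ // i ≠ i'} => X0 i) :=
    hind.comp Sum.inr Sum.inr_injective
  obtain ⟨g, q, hg1, hg2, hg3, hg4, hg5, hg6, hg7⟩ := hSPC K k Ω σ h2 i0 i' D0 X hne hi2 hd2 hp2
    ha2 hi1 (fun i h h' => (hrng i h h').1) (hik.transcendental 0)
  obtain ⟨g', q', hg1', hg2', hg3', hg4', hg5', hg6', hg7'⟩ := hSPC K k Ω σ h0 i0 i' D0 X0 hne
    hi0 hd0 hp0 ha0 hi1' (fun i h h' => (hrng i h h').2) (hik.transcendental 1)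
  have hslp := hSLP K σ W hW h2 h0 i0 i' hne hi2 hi0 hp2 hp0 x2 x0 hx2 hx0 hNN Ω X X0 ha2 ha0 hind
  have hmap : ∀ i, WL Ω (W i) = WL Ω ((W i).map (algebraMap K k)) := fun i => mm (W i)
  have hWk : ∀ i, ((W i).map (algebraMap K k)).IsElliptic := fun i => by
    have := hW i
    infer_instance
  have := hWk i0
  have := hWk i'
  obtain ⟨a2, b2, ha2x, hb2x, ha2n, hb2n, hm2, hs2, hx2'⟩ := tr2 _ _ (hmap i0) (P i0) (Q i0) e
  obtain ⟨a3, b3, ha3x, hb3x, ha3n, hb3n, hm3, hs3, hx3'⟩ := tr2 _ _ (hmap i') (P i') (Q i') e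
  rw [hPx] at ha2x ha3x
  rw [hQx] at hb2x hb3x
  obtain ⟨hw', hs', hRR⟩ := hC k Ω ((W i0).map (algebraMap K k)) ((W i').map (algebraMap K k)) e
    g g' a2 b2 a3 b3 hg1 hg1' hg2 hg2' hg3 hg3' (ha2n (hPn i0)) (hb2n (hQn i0)) (ha3n (hPn i'))
    (hb3n (hQn i')) (by rw [ha2x, hb2x]; exact hik) (by rw [ha2x, ha3x]; exact hg4)
    (by rw [hb2x, hb3x]; exact hg4') (by
      rw [ha2x, hb2x, ha3x, hb3x]
      intro hcon
      apply hslp
      rw [hg6, hg7, hg6', hg7']
      simp only [N0c, N1c, ← hmap] at hcon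
      change (Bf (WL Ω (W i0)) (X i0) * (q * aeval ![X i0, X i'] (pderiv 0 g)) ^ 2) *
          (Bf (WL Ω (W i')) (X0 i') * (q' * aeval ![X0 i0, X0 i'] (pderiv 1 g')) ^ 2) =
        (Bf (WL Ω (W i0)) (X0 i0) * (q' * aeval ![X0 i0, X0 i'] (pderiv 0 g')) ^ 2) *
          (Bf (WL Ω (W i')) (X i') * (q * aeval ![X i0, X i'] (pderiv 1 g)) ^ 2)
      linear_combination (q ^ 2 * q' ^ 2) * hcon)
  obtain ⟨hA1, hA2⟩ := hAIW K Ω {i : σ // i ≠ i'} (fun i => W i) (fun i => hW i) (fun i => P i)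
    (fun i => Q i) e (fun i => hPn i) (fun i => hQn i) (by
      have h : (Sum.elim (fun i : {i : σ // i ≠ i'} => xc (P i.1))
          (fun i : {i : σ // i ≠ i'} => xc (Q i.1))) =
          Sum.elim (fun i : {i : σ // i ≠ i'} => X i.1) (fun i : {i : σ // i ≠ i'} => X0 i.1) := by
        funext j
        rcases j with j | j
        · exact hPx j.1
        · exact hQx j.1
      have h' := hind
      rw [← h] at h'
      exact h')
  have hall : ∀ i, (2 ^ e) • P i - Q i ≠ 0 ∧ (2 ^ e) • P i + Q i ≠ 0 := by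
    intro i
    by_cases h : i = i'
    · subst h
      exact ⟨hm3 hw', hs3 hs'⟩
    · exact hA1 ⟨i, h⟩
  set Y : σ → Ω := fun i => xc ((2 ^ e) • P i - Q i) with hY
  have hlaw : ∀ i, (law (WL Ω (W i)) e false (X i) (X0 i) (Ψ i * Ψ0 i)).1 ≠ 0 ∧
      (law (WL Ω (W i)) e false (X i) (X0 i) (Ψ i * Ψ0 i)).2 =
        Y i * (law (WL Ω (W i)) e false (X i) (X0 i) (Ψ i * Ψ0 i)).1 := by
    intro i
    have := hWΩ i
    have h := (Pool.Agent.Helper12.SGB.th_ELAW Ω (WL Ω (W i)) (P i) (Q i) e two_ne_zero (hPn i)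
      (hQn i) (hall i).2).2.1 (hall i).1
    rw [hPx, hQx, hPs, hQs] at h
    exact h
  set L1 : σ → Ω := fun i => (law (WL Ω (W i)) e false (X i) (X0 i) (Ψ i * Ψ0 i)).1 with hL1
  -- the block function
  have hblk : ∀ α : Ax σ M e, blkB (mapS Ω W) M e (fun _ => false) X Ψ X0 Ψ0 α =
      (∏ i, L1 i ^ M) * ∏ i, (X i ^ (α i).1.val * Y i ^ (α i).2.val) := by
    intro α
    rw [← Finset.prod_mul_distrib]
    unfold blkB
    refine Finset.prod_congr rfl fun i _ => ?_
    change X i ^ (α i).1.val *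
      ((law (WL Ω (W i)) e false (X i) (X0 i) (Ψ i * Ψ0 i)).1 ^ (M - (α i).2.val) *
        (law (WL Ω (W i)) e false (X i) (X0 i) (Ψ i * Ψ0 i)).2 ^ (α i).2.val) = _
    rw [(hlaw i).2, mul_pow]
    have hm : L1 i ^ M = L1 i ^ (M - (α i).2.val) * L1 i ^ (α i).2.val := by
      rw [← pow_add]
      congr 1
      have := (α i).2.isLt
      omega
    change X i ^ (α i).1.val * (L1 i ^ (M - (α i).2.val) *
      (Y i ^ (α i).2.val * L1 i ^ (α i).2.val)) = L1 i ^ M * _
    rw [hm]
    ring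
  intro hsum
  simp only [hblk] at hsum
  have hsum2 : (∏ i, L1 i ^ M) * ∑ α : Ax σ M e, algebraMap K Ω (c α) *
      ∏ i, (X i ^ (α i).1.val * Y i ^ (α i).2.val) = 0 := by
    rw [Finset.mul_sum, ← hsum]
    refine Finset.sum_congr rfl fun α _ => ?_
    ring
  have hprod : (∏ i, L1 i ^ M) ≠ 0 := Finset.prod_ne_zero_iff.2 fun i _ =>
    pow_ne_zero _ (hlaw i).1
  have hS := (mul_eq_zero.1 hsum2).resolve_left hprod
  -- the coefficients
  let T := {i : σ // i ≠ i0 ∧ i ≠ i'}
  have hyk : ∀ i : T, ∃ z : k, algebraMap k Ω z = Y i.1 := fun i =>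
    w_mem (W i.1) e (X i.1) (X0 i.1) (Ψ i.1) (Ψ0 i.1) (Y i.1) (hΨ i.1) (hΨ0 i.1)
      (hrng i.1 i.2.1 i.2.2).1 (hrng i.1 i.2.1 i.2.2).2 (hlaw i.1).1 (hlaw i.1).2
  have hxk : ∀ i : T, ∃ z : k, algebraMap k Ω z = X i.1 := fun i =>
    (hrng i.1 i.2.1 i.2.2).1
  choose yk hyk' using hyk
  choose xk hxk' using hxk
  let z : T ⊕ T → k := Sum.elim xk yk
  have hz : AlgebraicIndependent K z := by
    apply AlgebraicIndependent.of_comp (IsScalarTower.toAlgHom K k Ω)
    let f : T ⊕ T → {i : σ // i ≠ i'} ⊕ {i : σ // i ≠ i'} :=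
      Sum.map (fun i => ⟨i.1, i.2.2⟩) (fun i => ⟨i.1, i.2.2⟩)
    have hf : Function.Injective f := by
      apply Function.Injective.sumMap
      · intro a b hab
        exact Subtype.ext (Subtype.mk.inj hab)
      · intro a b hab
        exact Subtype.ext (Subtype.mk.inj hab)
    have h := hA2.comp f hf
    have he : (Sum.elim (fun i : {i : σ // i ≠ i'} => xc (P i))
        (fun i : {i : σ // i ≠ i'} => xc ((2 ^ e) • P i - Q i))) ∘ f =
        (IsScalarTower.toAlgHom K k Ω) ∘ z := by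
      funext j
      rcases j with j | j
      · change xc (P j.1) = algebraMap k Ω (xk j)
        rw [hxk', hPx]
      · change xc ((2 ^ e) • P j.1 - Q j.1) = algebraMap k Ω (yk j)
        rw [hyk']
    rw [he] at h
    exact h
  obtain ⟨R, hR0, hRv, α, hα, hRd⟩ := poly (K := K) (k := k) (Ω := Ω) c hc
    (fun α => ![(α i0).1.val, (α i0).2.val, (α i').2.val])
    (fun α => Sum.elim (fun i : T => (α i.1).1.val) (fun i : T => (α i.1).2.val))
    (by
      intro α β hα hβ h3 ht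
      have a1 := congrFun h3 0
      have a2' := congrFun h3 1
      have a3' := congrFun h3 2
      simp only [Matrix.cons_val_zero] at a1
      simp only [Matrix.cons_val_one, Matrix.cons_val_zero] at a2'
      simp only [Matrix.cons_val] at a3'
      funext i
      by_cases hi : i = i0
      · subst hi
        exact Prod.ext (Fin.ext a1) (Fin.ext a2')
      by_cases hi' : i = i'
      · subst hi'
        refine Prod.ext (Fin.ext ?_) (Fin.ext a3')
        rw [(hcs α hα).1, (hcs β hβ).1]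
      · have t1 := congrFun ht (Sum.inl ⟨i, hi, hi'⟩)
        have t2 := congrFun ht (Sum.inr ⟨i, hi, hi'⟩)
        exact Prod.ext (Fin.ext t1) (Fin.ext t2)) z hz ![X i0, Y i0, Y i']
  have hRz : aeval ![X i0, Y i0, Y i'] R = 0 := by
    rw [hRv, ← hS]
    refine Finset.sum_congr rfl fun α _ => ?_
    by_cases hcα : c α = 0
    · rw [hcα, map_zero, zero_mul, zero_mul]
    congr 1
    rw [prodT i0 i' hne, (hcs α hcα).1, Fintype.prod_sum_type, Fin.prod_univ_three,
      Finset.prod_mul_distrib]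
    have e1 : (∏ i : T, algebraMap k Ω (z (Sum.inl i)) ^ (α i.1).1.val) =
        ∏ i : T, X i.1 ^ (α i.1).1.val := Finset.prod_congr rfl fun i _ => by
      change algebraMap k Ω (xk i) ^ _ = _
      rw [hxk']
    have e2 : (∏ i : T, algebraMap k Ω (z (Sum.inr i)) ^ (α i.1).2.val) =
        ∏ i : T, Y i.1 ^ (α i.1).2.val := Finset.prod_congr rfl fun i _ => by
      change algebraMap k Ω (yk i) ^ _ = _
      rw [hyk']
    simp only [Sum.elim_inl, Sum.elim_inr, Matrix.cons_val_zero, Matrix.cons_val_one,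
      Matrix.cons_val]
    rw [e1, e2]
    ring
  have hfin := hRR R hR0 (by
    rw [ha2x, hx2', hx3']
    exact hRz)
  rw [hRd] at hfin
  have h1 := (hcs α hα).2
  simp only [Matrix.cons_val_zero] at hfin
  exact absurd hfin (not_le.2 h1)

end

end Pool.Agent.Helper33.T3.INDR
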