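import Pool.Agent.Helper68.T3.GoalsA
import Pool.Agent.Helper41.VN.PSDV

/-!
# Packet PG-PSD3 (MP_a41896_nt): pseudo-division, uniform in the exponent (helper33)
-/

set_option autoImplicit false

open MvPolynomial

namespace Pool.Agent.Helper33.T3

open Height
open Pool.Agent.Helper92.Ru Pool.Agent.Helper60.HC
open Pool.Agent.Helper41.VN

noncomputable section

variable {K : Type} [Field K] [NumberField K] {σ : Type}

/-- one division step in a commutative ring -/
lemma step3 {B : Type} [CommRing B] (x u : B) (dd : ℕ) (α b : ℕ → B) (v : B)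
    (hrel : ∑ t ∈ Finset.range (dd + 1), α t * x ^ t + u * x ^ (dd + 1) = 0)
    (hb : v = ∑ t ∈ Finset.range (dd + 1), b t * x ^ t) :
    u * (v * x) = ∑ t ∈ Finset.range (dd + 1),
      ((if t = 0 then 0 else u * b (t - 1)) - b dd * α t) * x ^ t := by
  have h1 : ∑ t ∈ Finset.range (dd + 1), (if t = 0 then 0 else u * b (t - 1)) * x ^ t =
      ∑ t ∈ Finset.range dd, u * b t * x ^ (t + 1) := by
    rw [Finset.sum_range_succ']
    simp
  have h2 : u * (v * x) = ∑ t ∈ Finset.range dd, u * b t * x ^ (t + 1) +
      b dd * (u * x ^ (dd + 1)) := by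
    rw [hb, Finset.sum_range_succ, add_mul, mul_add, Finset.sum_mul, Finset.mul_sum]
    congr 1
    · refine Finset.sum_congr rfl fun t _ => ?_
      ring
    · ring
  have h3 : u * x ^ (dd + 1) = - ∑ t ∈ Finset.range (dd + 1), α t * x ^ t := by
    linear_combination hrel
  rw [h2, h3]
  simp only [sub_mul]
  rw [Finset.sum_sub_distrib, h1, sub_eq_add_neg]
  congr 1
  rw [mul_neg, Finset.mul_sum]
  congr 1
  refine Finset.sum_congr rfl fun t _ => ?_
  ring

lemma division3 (i' : σ) (D0 dd : ℕ) (H : ℝ) (hH : 1 ≤ H)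
    (a : ℕ → MvPolynomial σ K) (hdeg : ∀ k h, (a k).degreeOf h ≤ D0)
    (hoff : ∀ k, (a k).degreeOf i' = 0) (hi : ∀ k, Ig (a k)) (hh : ∀ k, hs (a k) ≤ H) (k : ℕ) :
    ∃ b : ℕ → MvPolynomial σ K, (∀ t h, (b t).degreeOf h ≤ k * D0) ∧
      (∀ t, (b t).degreeOf i' = 0) ∧ (∀ t, Ig (b t)) ∧
      (∀ t, hs (b t) ≤ (2 * H) ^ k) ∧
      ∀ (B : Type) [CommRing B] [Algebra K B] (X : σ → B),
        ∑ t ∈ Finset.range (dd + 1), aeval X (a t) * X i' ^ t +
          aeval X (a (dd + 1)) * X i' ^ (dd + 1) = 0 →
        aeval X (a (dd + 1)) ^ k * X i' ^ k =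
          ∑ t ∈ Finset.range (dd + 1), aeval X (b t) * X i' ^ t := by
  induction k with
  | zero =>
    refine ⟨fun t => if t = 0 then 1 else 0, ?_, ?_, ?_, ?_, ?_⟩
    · intro t h
      dsimp only
      split_ifs
      · rw [degreeOf_one]; exact Nat.zero_le _
      · rw [degreeOf_zero]; exact Nat.zero_le _
    · intro t
      dsimp only
      split_ifs
      · exact degreeOf_one i'
      · exact degreeOf_zero i'
    · intro t
      dsimp only
      split_ifs
      · exact Ig.one
      · exact Ig.zero
    · intro t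
      dsimp only
      rw [pow_zero]
      split_ifs
      · exact hs_one.le
      · rw [hs_zero]; exact zero_le_one
    · intro B _ _ X _
      rw [pow_zero, pow_zero, mul_one, Finset.sum_range_succ']
      simp
  | succ k ih =>
    obtain ⟨b, b1, b2, b3, b4, b5⟩ := ih
    have hk0 : (0 : ℝ) ≤ (2 * H) ^ k := by positivity
    refine ⟨fun t => (if t = 0 then 0 else a (dd + 1) * b (t - 1)) + -(b dd * a t),
      ?_, ?_, ?_, ?_, ?_⟩
    · intro t h
      dsimp only
      have e2 : (-(b dd * a t)).degreeOf h ≤ (k + 1) * D0 := by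
        rw [degreeOf_neg]
        refine (degreeOf_mul_le _ _ _).trans ?_
        have := b1 dd h
        have := hdeg t h
        rw [add_mul, one_mul]
        omega
      have e1 : ((if t = 0 then 0 else a (dd + 1) * b (t - 1) : MvPolynomial σ K)).degreeOf h ≤
          (k + 1) * D0 := by
        split_ifs
        · rw [degreeOf_zero]; exact Nat.zero_le _
        · refine (degreeOf_mul_le _ _ _).trans ?_
          have := b1 (t - 1) h
          have := hdeg (dd + 1) h
          rw [add_mul, one_mul]
          omega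
      exact (degreeOf_add_le _ _ _).trans (max_le e1 e2)
    · intro t
      dsimp only
      have e2 : (-(b dd * a t)).degreeOf i' ≤ 0 := by
        rw [degreeOf_neg]
        refine (degreeOf_mul_le _ _ _).trans ?_
        rw [b2 dd, hoff t]
      have e1 : ((if t = 0 then 0 else a (dd + 1) * b (t - 1) : MvPolynomial σ K)).degreeOf i' ≤
          0 := by
        split_ifs
        · rw [degreeOf_zero]
        · refine (degreeOf_mul_le _ _ _).trans ?_
          rw [b2 _, hoff _]
      exact Nat.le_zero.1 ((degreeOf_add_le _ _ _).trans (max_le e1 e2))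
    · intro t
      dsimp only
      refine Ig.add ?_ (((b3 dd).mul (hi t)).neg)
      split_ifs
      · exact Ig.zero
      · exact (hi _).mul (b3 _)
    · intro t
      dsimp only
      refine (hs_add _ _).trans ?_
      rw [hs_neg]
      have e2 : hs (b dd * a t) ≤ (2 * H) ^ k * H :=
        (hs_mul _ _).trans (mul_le_mul (b4 dd) (hh t) (hs_nonneg _) hk0)
      have e1 : hs (if t = 0 then 0 else a (dd + 1) * b (t - 1) : MvPolynomial σ K) ≤
          (2 * H) ^ k * H := by
        split_ifs
        · rw [hs_zero]; positivity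
        · rw [mul_comm]
          exact (hs_mul _ _).trans (mul_le_mul (b4 _) (hh _) (hs_nonneg _) hk0)
      rw [pow_succ]
      linarith
    · intro B _ _ X hrel
      have h := step3 (X i') (aeval X (a (dd + 1))) dd (fun t => aeval X (a t))
        (fun t => aeval X (b t)) _ hrel (b5 B X hrel)
      rw [pow_succ, pow_succ]
      have e : aeval X (a (dd + 1)) ^ k * aeval X (a (dd + 1)) * (X i' ^ k * X i') =
          aeval X (a (dd + 1)) * (aeval X (a (dd + 1)) ^ k * X i' ^ k * X i') := by ring
      rw [e, h]
      refine Finset.sum_congr rfl fun t _ => ?_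
      congr 1
      rw [map_add, map_neg, map_mul, sub_eq_add_neg]
      congr 1
      split_ifs
      · rw [map_zero]
      · rw [map_mul]

/-- **PSD3.** -/
theorem t_PSD3 : Pool.Agent.Helper68.T3.PSD3 := by
  classical
  intro K _ _ σ _ _ D0
  obtain ⟨n, hn⟩ : ∃ n : ℕ, n = (D0 + 1) ^ Fintype.card σ := ⟨_, rfl⟩
  have hn1 : 1 ≤ n := by
    rw [hn]
    exact Nat.one_le_pow _ _ (Nat.succ_pos _)
  have hn1' : (1 : ℝ) ≤ n := by exact_mod_cast hn1
  have hlog : 0 ≤ Real.log (2 * n) := Real.log_nonneg (by linarith)
  refine ⟨Real.log (2 * n) + (n + 1), by positivity, ?_⟩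
  intro g i' A N hA hg0 hgD hgA
  have hP1 : 1 ≤ PH g := one_le_mulHeight _
  have hPA : PH g ≤ Real.exp A := by
    rw [← Real.log_le_iff_le_exp (by linarith)]
    exact hgA
  -- the largest index
  have hex : ∃ k ≤ D0, sl i' k g ≠ 0 := by
    by_contra hcon
    push Not at hcon
    apply hg0
    rw [eq_sum_sl i' g D0 (hgD i')]
    refine Finset.sum_eq_zero fun k hk => ?_
    rw [hcon k (by have := Finset.mem_range.1 hk; omega), zero_mul]
  obtain ⟨k0, hk0D, hk0⟩ := hex
  obtain ⟨m, hm⟩ : ∃ m, m = Nat.findGreatest (fun k => sl i' k g ≠ 0) D0 := ⟨_, rfl⟩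
  have hm0 : sl i' m g ≠ 0 := by
    rw [hm]
    exact Nat.findGreatest_spec (P := fun k => sl i' k g ≠ 0) hk0D hk0
  have hmD : m ≤ D0 := by
    rw [hm]
    exact Nat.findGreatest_le D0
  have hmx : ∀ k, m < k → sl i' k g = 0 := by
    intro k hk
    by_contra hne
    by_cases hkD : k ≤ D0
    · rw [hm] at hk
      exact Nat.findGreatest_is_greatest hk hkD hne
    · exact hne (sl_eq_zero i' k g (by have := hgD i'; omega))
  have hgm : g = ∑ k ∈ Finset.range (m + 1), sl i' k g * X i' ^ k := by
    conv_lhs => rw [eq_sum_sl i' g D0 (hgD i')]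
    symm
    refine Finset.sum_subset (fun k hk => ?_) (fun k _ hk => ?_)
    · have := Finset.mem_range.1 hk
      exact Finset.mem_range.2 (by omega)
    · have : ¬ k < m + 1 := fun h => hk (Finset.mem_range.2 h)
      rw [hmx k (by omega), zero_mul]
  -- scaling
  obtain ⟨r, hr0, hr⟩ := scal' D0 g hg0 hgD
  rw [← hn] at hr
  have hexp1 : ∀ c : ℝ, 0 ≤ c → 1 ≤ Real.exp ((Real.log (2 * n) + (n + 1)) * c) := fun c hc =>
    Real.one_le_exp (by positivity)
  refine ⟨sl i' m g, r, ?_⟩
  have ha1 : ∀ i, (sl i' m g).degreeOf i ≤ D0 := fun i => (degreeOf_sl i' m g i).trans (hgD i)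
  have ha2 : (sl i' m g).degreeOf i' = 0 := degreeOf_sl_self i' m g
  have ha3 : Real.log (PH (sl i' m g)) ≤ A := by
    refine le_trans (Real.log_le_log ?_ (PH_sl i' m g)) hgA
    exact lt_of_lt_of_le zero_lt_one (one_le_mulHeight _)
  rcases Nat.eq_zero_or_pos m with hmz | hmp
  · -- `g` does not contain `X i'`
    refine ⟨fun _ t => if N = 0 ∧ t = 0 then 1 else 0, hm0, ha1, ha2, ha3, hr0, ?_, ?_, ?_, ?_⟩
    · intro k t i
      dsimp only
      split_ifs
      · rw [degreeOf_one]; exact Nat.zero_le _
      · rw [degreeOf_zero]; exact Nat.zero_le _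
    · intro k t
      dsimp only
      split_ifs
      · exact degreeOf_one i'
      · exact degreeOf_zero i'
    · intro k t s
      dsimp only
      have h1 := hexp1 ((N + 1) * (1 + A)) (by positivity)
      split_ifs
      · refine ⟨Ig.one s, (le_hs _ s).trans ?_⟩
        rw [hs_one]
        exact h1
      · refine ⟨Ig.zero s, (le_hs _ s).trans ?_⟩
        rw [hs_zero]
        linarith
    · intro B _ _ X hX k hk
      have h0 : aeval X (sl i' m g) = 0 := by
        rw [hmz] at hgm ⊢
        rw [zero_add, Finset.sum_range_one, pow_zero, mul_one] at hgm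
        rw [← hgm]
        exact hX
      rw [h0, mul_zero]
      rcases Nat.eq_zero_or_pos N with hN | hN
      · subst hN
        obtain rfl : k = 0 := by omega
        rw [Finset.sum_range_succ']
        simp
      · rw [zero_pow (by omega), zero_mul]
        symm
        refine Finset.sum_eq_zero fun t _ => ?_
        dsimp only
        rw [if_neg (by omega), map_zero, zero_mul]
  · obtain ⟨dd, rfl⟩ := Nat.exists_eq_succ_of_ne_zero hmp.ne'
    obtain ⟨a, ha⟩ : ∃ a : ℕ → MvPolynomial σ K, a = fun k => C r * sl i' k g := ⟨_, rfl⟩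
    have ha' : ∀ k, a k = C r * sl i' k g := fun k => by rw [ha]
    have hac : ∀ k s, coeff s (a k) =
        if s i' = 0 then r * coeff (s + Finsupp.single i' k) g else 0 := by
      intro k s
      rw [ha' k, coeff_C_mul, coeff_sl]
      split_ifs
      · rfl
      · rw [mul_zero]
    have hdeg' : ∀ k h, (a k).degreeOf h ≤ (sl i' k g).degreeOf h := by
      intro k h
      rw [ha' k]
      exact degreeOf_C_mul_le _ _ _
    have hdeg : ∀ k h, (a k).degreeOf h ≤ D0 := fun k h =>
      (hdeg' k h).trans ((degreeOf_sl i' k g h).trans (hgD h))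
    have hoff : ∀ k, (a k).degreeOf i' = 0 := by
      intro k
      refine Nat.le_zero.1 ((hdeg' k i').trans ?_)
      rw [degreeOf_sl_self i' k g]
    have hint : ∀ k, Ig (a k) := by
      intro k s
      rw [hac]
      split_ifs
      · exact (hr _).1
      · exact isIntegral_zero
    obtain ⟨H, hH⟩ : ∃ H : ℝ, H = n * Real.exp A ^ (n + 1) := ⟨_, rfl⟩
    have hE1 : (1 : ℝ) ≤ Real.exp A := Real.one_le_exp hA
    have hH1 : 1 ≤ H := by
      rw [hH]
      exact one_le_mul_of_one_le_of_one_le hn1' (one_le_pow₀ hE1)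
    have hhs : ∀ k, hs (a k) ≤ H := by
      intro k
      have h1 : ∀ s ∈ (a k).support,
          NumberField.house (coeff s (a k)) ≤ Real.exp A ^ (n + 1) := by
        intro s _
        rw [hac]
        split_ifs
        · exact (hr _).2.trans (pow_le_pow_left₀ (by linarith) hPA _)
        · rw [house_zero']; positivity
      unfold hs
      refine (Finset.sum_le_sum h1).trans ?_
      rw [Finset.sum_const, nsmul_eq_mul, hH]
      refine mul_le_mul_of_nonneg_right ?_ (by positivity)
      have h2 := card_support' D0 (a k) (hdeg k)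
      rw [← hn] at h2
      exact_mod_cast h2
    choose b b1 b2 b3 b4 b5 using division3 i' D0 dd H hH1 a hdeg hoff hint hhs
    have hfin : (2 * H) ^ N ≤
        Real.exp ((Real.log (2 * n) + (n + 1)) * ((N + 1) * (1 + A))) := by
      have e1 : 2 * H ≤ Real.exp ((Real.log (2 * n) + (n + 1)) * (1 + A)) := by
        have e2 : 2 * H = Real.exp (Real.log (2 * n) + (n + 1) * A) := by
          rw [Real.exp_add, Real.exp_log (by linarith), hH, ← Real.exp_nat_mul]
          push_cast
          ring
        rw [e2]
        apply Real.exp_le_exp.2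
        nlinarith
      calc (2 * H) ^ N ≤ Real.exp ((Real.log (2 * n) + (n + 1)) * (1 + A)) ^ N :=
            pow_le_pow_left₀ (by linarith) e1 _
        _ = Real.exp (N * ((Real.log (2 * n) + (n + 1)) * (1 + A))) := by
            rw [← Real.exp_nat_mul]
        _ ≤ _ := by
            apply Real.exp_le_exp.2
            have h3 : 0 ≤ (Real.log (2 * n) + (n + 1)) * (1 + A) := by positivity
            nlinarith
    have h2H : 1 ≤ 2 * H := by linarith
    refine ⟨fun k t => if k ≤ N ∧ t < dd + 1 then a (dd + 1) ^ (N - k) * b k t else 0,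
      hm0, ha1, ha2, ha3, hr0, ?_, ?_, ?_, ?_⟩
    · intro k t h
      dsimp only
      split_ifs with hc
      · refine (degreeOf_mul_le _ _ _).trans ?_
        have e1 := (degreeOf_pow_le h (a (dd + 1)) (N - k)).trans
          (Nat.mul_le_mul_left (N - k) (hdeg (dd + 1) h))
        have e2 := b1 k t h
        calc _ ≤ (N - k) * D0 + k * D0 := Nat.add_le_add e1 e2
          _ = N * D0 := by rw [← add_mul, Nat.sub_add_cancel hc.1]
      · rw [degreeOf_zero]; exact Nat.zero_le _
    · intro k t
      dsimp only
      split_ifs with hc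
      · refine Nat.le_zero.1 ((degreeOf_mul_le _ _ _).trans ?_)
        have e1 := (degreeOf_pow_le i' (a (dd + 1)) (N - k))
        rw [hoff (dd + 1), mul_zero] at e1
        rw [b2 k t, add_zero]
        exact e1
      · exact degreeOf_zero i'
    · intro k t s
      dsimp only
      split_ifs with hc
      · refine ⟨(((hint (dd + 1)).pow (N - k)).mul (b3 k t)) s, ?_⟩
        refine (le_hs _ s).trans (le_trans ?_ hfin)
        refine (hs_mul _ _).trans ?_
        have e1 : hs (a (dd + 1) ^ (N - k)) ≤ (2 * H) ^ (N - k) :=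
          (hs_pow _ _).trans (pow_le_pow_left₀ (hs_nonneg _) ((hhs _).trans (by linarith)) _)
        calc hs (a (dd + 1) ^ (N - k)) * hs (b k t) ≤ (2 * H) ^ (N - k) * (2 * H) ^ k :=
              mul_le_mul e1 (b4 k t) (hs_nonneg _) (by positivity)
          _ = (2 * H) ^ N := by rw [← pow_add, Nat.sub_add_cancel hc.1]
      · rw [coeff_zero]
        refine ⟨isIntegral_zero, ?_⟩
        rw [house_zero']
        exact (Real.exp_pos _).le
    · intro B _ _ X hX k hk
      have hlead : algebraMap K B r * aeval X (sl i' (dd + 1) g) = aeval X (a (dd + 1)) := by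
        rw [ha' (dd + 1), map_mul, aeval_C]
      have hrel : ∑ t ∈ Finset.range (dd + 1), aeval X (a t) * X i' ^ t +
          aeval X (a (dd + 1)) * X i' ^ (dd + 1) = 0 := by
        rw [← Finset.sum_range_succ (fun t => aeval X (a t) * X i' ^ t) (dd + 1)]
        have e : ∑ t ∈ Finset.range (dd + 1 + 1), aeval X (a t) * X i' ^ t =
            algebraMap K B r * aeval X g := by
          conv_rhs => rw [hgm]
          rw [map_sum, Finset.mul_sum]
          refine Finset.sum_congr rfl fun t _ => ?_
          rw [ha' t, map_mul, map_mul, map_pow, aeval_C, aeval_X]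
          ring
        rw [e, hX, mul_zero]
      rw [Nat.succ_eq_add_one, hlead]
      have e1 : aeval X (a (dd + 1)) ^ N * X i' ^ k =
          aeval X (a (dd + 1)) ^ (N - k) * (aeval X (a (dd + 1)) ^ k * X i' ^ k) := by
        rw [← mul_assoc, ← pow_add, Nat.sub_add_cancel hk]
      rw [e1, b5 k B X hrel, Finset.mul_sum]
      have hsub : Finset.range (dd + 1) ⊆ Finset.range (D0 + 1) := by
        intro t ht
        have := Finset.mem_range.1 ht
        exact Finset.mem_range.2 (by omega)
      rw [← Finset.sum_subset hsub]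
      · refine Finset.sum_congr rfl fun t ht => ?_
        dsimp only
        rw [if_pos ⟨hk, Finset.mem_range.1 ht⟩, map_mul, map_pow]
        ring
      · intro t _ ht
        dsimp only
        rw [if_neg, map_zero, zero_mul]
        rintro ⟨_, h⟩
        exact ht (Finset.mem_range.2 h)

end

end Pool.Agent.Helper33.T3
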